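import Pool.Agent.Lib.MP_389031_co.Crit
import Pool.Agent.Lib.MP_389031_co.L10

namespace Pool.Agent.Results.MP_389031_co.AsymptoticSize

/-- Every critical graph of degree `m` has at least `m ^ 2 / 2 - (√3 / 2) m ^ (3 / 2)` edges. -/
theorem result {V : Type} [Fintype V] [DecidableEq V] (G : SimpleGraph V)
    [DecidableRel G.Adj] (m : ℕ) (hm : 2 ≤ m) (h : VizSize.Critical G m) :
    (m : ℝ) ^ 2 / 2 - Real.sqrt 3 / 2 * (m * Real.sqrt m) ≤ (G.edgeFinset.card : ℝ) := by
  obtain ⟨hn, q, p, δ, h1, h2, h3, h4, h5, -, h7, h8⟩ := VizSize.ingredients G m hm h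
  have := VizSize.arithA m (Fintype.card V) δ q p G.edgeFinset.card hm h1 h2 h3 h5 h4 hn h7 h8
  linarith

end Pool.Agent.Results.MP_389031_co.AsymptoticSize
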