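import Pool.Agent.Lib.MP_389031_co.Crit
import Pool.Agent.Lib.MP_389031_co.L9

namespace Pool.Agent.Results.MP_389031_co.ExactLargeOrder

/-- Every critical graph of degree `m` with at least `m + √(3 m) + 6` vertices has more than
`m ^ 2 / 2` edges. -/
theorem result {V : Type} [Fintype V] [DecidableEq V] (G : SimpleGraph V)
    [DecidableRel G.Adj] (m : ℕ) (hm : 2 ≤ m) (h : VizSize.Critical G m)
    (hn : (m : ℝ) + Real.sqrt (3 * m) + 6 ≤ (Fintype.card V : ℝ)) :
    (m : ℝ) ^ 2 / 2 < (G.edgeFinset.card : ℝ) := by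
  obtain ⟨-, q, p, δ, h1, h2, h3, h4, h5, h6, h7, h8⟩ := VizSize.ingredients G m hm h
  have := VizSize.arith m (Fintype.card V) δ q p G.edgeFinset.card hm h1 h2 h3 h5 h4 hn h6 h7 h8
  have h9 : (m : ℝ) ^ 2 < 2 * (G.edgeFinset.card : ℝ) := by exact_mod_cast this
  linarith

end Pool.Agent.Results.MP_389031_co.ExactLargeOrder
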